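import Mathlib

set_option autoImplicit false

namespace Pool.Agent.H.MP_217de7_gt

open Set Metric Filter Topology Complex

theorem inv {D D' : ℂ → ℂ} (hd : ∀ x, HasDerivAt D (D' x) x)
    (h1 : ∀ x ∈ closedBall (0 : ℂ) 3, ‖D x - 1‖ ≤ 1 / 10)
    (h2 : ∀ x ∈ closedBall (0 : ℂ) 3, ‖D' x‖ ≤ 1 / 10) :
    ∃ X : ℂ → ℂ, ∀ v ∈ ball (0 : ℂ) (5 / 2), DifferentiableAt ℂ X v ∧ ‖X v‖ ≤ 3 ∧
      X v = v * D (X v) ∧ ∀ x, ‖x‖ ≤ 3 → x = v * D x → x = X v := by
  have L : ∀ x ∈ closedBall (0 : ℂ) 3, ∀ y ∈ closedBall (0 : ℂ) 3, ‖D y - D x‖ ≤ 1 / 10 * ‖y - x‖ :=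
    fun x hx y hy => (convex_closedBall 0 3).norm_image_sub_le_of_norm_hasDerivWithin_le
      (fun x _ => (hd x).hasDerivWithinAt) h2 hx hy
  have B : ∀ x ∈ closedBall (0 : ℂ) 3, ‖D x‖ ≤ 11 / 10 := fun x hx => by
    have := norm_add_le (D x - 1) 1
    rw [sub_add_cancel, norm_one] at this
    linarith [h1 x hx]
  have K : ∀ v ∈ ball (0 : ℂ) (5 / 2), ∀ w x y : ℂ, ‖x‖ ≤ 3 → ‖y‖ ≤ 3 →
      ‖v * D x - w * D y‖ ≤ 1 / 4 * ‖x - y‖ + 11 / 10 * ‖v - w‖ := fun v hv w x y hx hy => by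
    rw [show v * D x - w * D y = v * (D x - D y) + (v - w) * D y by ring]
    refine (norm_add_le _ _).trans ?_
    rw [norm_mul, norm_mul]
    have := L y (mem_closedBall_zero_iff.2 hy) x (mem_closedBall_zero_iff.2 hx)
    have := B y (mem_closedBall_zero_iff.2 hy)
    have := mem_ball_zero_iff.1 hv
    nlinarith [norm_nonneg (D x - D y), norm_nonneg (v - w), norm_nonneg (x - y)]
  have E : ∀ v ∈ ball (0 : ℂ) (5 / 2), ∃ x, ‖x‖ ≤ 3 ∧ x = v * D x := fun v hv => by
    have m : MapsTo (fun x => v * D x) (closedBall 0 3) (closedBall 0 3) := fun x hx => by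
      rw [mem_closedBall_zero_iff, norm_mul]
      nlinarith [B x hx, mem_ball_zero_iff.1 hv, norm_nonneg v, norm_nonneg (D x)]
    obtain ⟨y, hy, e, -⟩ := ContractingWith.exists_fixedPoint' (K := 1 / 4)
      isClosed_closedBall.isComplete m ⟨by norm_num, .of_dist_le_mul fun x y => by
        simpa [Subtype.dist_eq, dist_eq_norm] using K v hv v x y (mem_closedBall_zero_iff.1 x.2)
          (mem_closedBall_zero_iff.1 y.2)⟩ (mem_closedBall_self (by norm_num)) (edist_ne_top _ _)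
    exact ⟨y, mem_closedBall_zero_iff.1 hy, e.symm⟩
  choose! X X1 X2 using E
  have N : ∀ x, ‖x‖ ≤ 3 → D x ≠ 0 := fun x hx h => by
    have := h1 x (mem_closedBall_zero_iff.2 hx)
    norm_num [h] at this
  refine ⟨X, fun v hv => ⟨?_, X1 v hv, X2 v hv, fun x hx e => ?_⟩⟩
  · have o := isOpen_ball.mem_nhds hv
    refine (HasDerivAt.of_local_left_inverse (f := fun x => x / D x) ?_
      ((hasDerivAt_id' _).fun_div (hd _) (N _ (X1 v hv))) ?_ ?_).differentiableAt
    · refine (LipschitzOnWith.of_dist_le_mul (K := 2) fun a ha b hb => ?_).continuousOn.continuousAt o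
      have := K a ha b _ _ (X1 a ha) (X1 b hb)
      rw [← X2 a ha, ← X2 b hb] at this
      simp only [dist_eq_norm, NNReal.coe_ofNat]
      linarith [norm_nonneg (a - b)]
    · refine div_ne_zero (fun h => ?_) (pow_ne_zero _ (N _ (X1 v hv)))
      have m := mem_closedBall_zero_iff.2 (X1 v hv)
      have := norm_sub_le (X v * D' (X v)) (D (X v) - 1)
      rw [show X v * D' (X v) - (D (X v) - 1) = 1 by linear_combination -h, norm_mul, norm_one] at this
      nlinarith [h1 _ m, h2 _ m, X1 v hv, norm_nonneg (X v), norm_nonneg (D' (X v))]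
    · filter_upwards [o] with a ha
      rw [div_eq_iff (N _ (X1 a ha))]
      exact X2 a ha
  · have := K v hv v _ _ hx (X1 v hv)
    rw [← e, ← X2 v hv, sub_self, norm_zero] at this
    exact sub_eq_zero.1 (norm_le_zero_iff.1 (by linarith))

/-- the entire function `(exp z - 1) / z` -/
noncomputable def Ph : ℂ → ℂ := dslope exp 0

theorem Ph_diff : Differentiable ℂ Ph := differentiableOn_univ.1
  ((differentiableOn_dslope univ_mem).2 differentiable_exp.differentiableOn)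

theorem Ph_eq (z : ℂ) : z * Ph z = exp z - 1 := by
  simpa [Ph] using sub_smul_dslope exp 0 z

/-- denominators of the parametrisation -/
noncomputable def D (e : ℝ) (x : ℂ) : ℂ := 2 * x + (1 - 2 * x) * exp (e * (1 - x) ^ 2)

/-- derivative of `D` -/
noncomputable def D' (e : ℝ) (x : ℂ) : ℂ :=
  2 - (2 + 2 * e * (1 - x) * (1 - 2 * x)) * exp (e * (1 - x) ^ 2)

/-- ratio to the Euclidean weight -/
noncomputable def W (e : ℝ) (x : ℂ) : ℂ := 1 + (1 - 2 * x) * e * (1 - x) * Ph (e * (1 - x) ^ 2)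

/-- curvature correction -/
noncomputable def E (e : ℝ) (x : ℂ) : ℂ := 2 * e * (1 - x) * x * (1 - 2 * x)

/-- relative density -/
noncomputable def Hc (e : ℝ) (x : ℂ) : ℂ :=
  W e x ^ (3 / 2 : ℂ) * exp (-e * (1 - x)) * (1 - E e x) / (1 + E e x)

/-- smallness of the parameter -/
def Sm (e : ℝ) : Prop := ∀ x ∈ closedBall (0 : ℂ) 3, ‖D e x - 1‖ < 1 / 10 ∧ ‖D' e x‖ < 1 / 10 ∧
  ‖W e x - 1‖ < 1 ∧ ‖E e x‖ < 1 ∧ ‖Hc e x - 1‖ < 1 / 2

theorem small : ∀ᶠ e in 𝓝 (0 : ℝ), Sm e := by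
  refine (isCompact_closedBall (0 : ℂ) 3).eventually_forall_of_forall_eventually fun x _ => ?_
  have c := Ph_diff.continuous
  have w : Continuous fun z : ℝ × ℂ => W z.1 z.2 := by unfold W; fun_prop
  have e : Continuous fun z : ℝ × ℂ => E z.1 z.2 := by unfold E; fun_prop
  have h : ContinuousAt (fun z : ℝ × ℂ => Hc z.1 z.2) (0, x) :=
    (((w.continuousAt.cpow continuousAt_const (by simp [W])).mul (by fun_prop)).mul
      (by fun_prop)).div (by fun_prop) (by simp [E])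
  refine .and ?_ (.and ?_ (.and ?_ (.and ?_ ?_))) <;>
    refine ContinuousAt.eventually_lt ?_ continuousAt_const (by simp [D, D', W, E, Hc])
  · unfold D; fun_prop
  · unfold D'; fun_prop
  all_goals fun_prop

theorem hasD (e : ℝ) (x : ℂ) : HasDerivAt (D e) (D' e x) x :=
  (((hasDerivAt_id' x).const_mul 2).fun_add ((((hasDerivAt_id' x).const_mul 2).const_sub 1).fun_mul
    ((((hasDerivAt_id' x).const_sub 1).fun_pow 2).const_mul _).cexp)).congr_deriv
    (by simp only [D']; push_cast; ring)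

theorem H_diff {e : ℝ} (h : Sm e) {x : ℂ} (hx : ‖x‖ ≤ 3) : DifferentiableAt ℂ (Hc e) x := by
  obtain ⟨-, -, h1, h2, -⟩ := h x (mem_closedBall_zero_iff.2 hx)
  have c := Ph_diff
  have w : Differentiable ℂ (W e) := by unfold W; fun_prop
  have e' : Differentiable ℂ (E e) := by unfold E; fun_prop
  refine ((((w x).cpow_const ?_).fun_mul (by fun_prop)).fun_mul (by fun_prop)).fun_div (by fun_prop)
    fun h => ?_
  · simpa using mem_slitPlane_of_norm_lt_one h1
  · rw [show E e x = -1 by linear_combination h] at h2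
    simp at h2

end Pool.Agent.H.MP_217de7_gt
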