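import Mathlib

set_option autoImplicit false

namespace Pool.Agent.H.MP_217de7_gt

open Set Metric MeasureTheory Real

theorem lv1 {w m : ℝ} (hw : 0 < w) : Integrable (fun l => exp (-(w * l)) * √(l - m)) ∧
    ∫ l, exp (-(w * l)) * √(l - m) = exp (-(w * m)) * ((1 / w) ^ (3 / 2 : ℝ) * Gamma (3 / 2)) := by
  have e : ∀ l ∈ Ioi (0 : ℝ), l ^ (3 / 2 - 1 : ℝ) * exp (-(w * l)) = exp (-(w * l)) * √l :=
    fun l _ => by rw [sqrt_eq_rpow, mul_comm]; norm_num
  have z : ∀ l ∉ Ioi (0 : ℝ), exp (-(w * l)) * √l = 0 := fun l hl => by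
    rw [sqrt_eq_zero_of_nonpos (not_lt.1 hl), mul_zero]
  have i : Integrable fun l => exp (-(w * l)) * √l := by
    refine IntegrableOn.integrable_of_forall_notMem_eq_zero (s := Ioi 0) ?_ z
    refine IntegrableOn.congr_fun ?_ e measurableSet_Ioi
    simpa using integrableOn_rpow_mul_exp_neg_mul_rpow (p := 1) (s := 3 / 2 - 1) (by norm_num)
      one_pos hw
  have f : (fun l => exp (-(w * l)) * √(l - m)) =
      fun l => exp (-(w * m)) * (exp (-(w * (l - m))) * √(l - m)) := funext fun l => by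
    rw [← mul_assoc, ← exp_add]
    ring_nf
  rw [f]
  refine ⟨(i.comp_sub_right m).const_mul _, ?_⟩
  rw [integral_const_mul, integral_sub_right_eq_self (fun l => exp (-(w * l)) * √l),
    ← setIntegral_eq_integral_of_forall_compl_eq_zero z, ← setIntegral_congr_fun measurableSet_Ioi e,
    integral_rpow_mul_exp_neg_mul_Ioi (by norm_num) hw]

theorem gm {h : ℂ → ℂ} (hd : DifferentiableOn ℂ h (closedBall 0 2))
    (hb : ∀ z ∈ closedBall (0 : ℂ) 2, ‖h z - 1‖ ≤ 1 / 2) :
    ∃ ν : Measure ℝ, SFinite ν ∧ (∀ᵐ l ∂ν, 0 < l) ∧ ∀ S : ℝ, 0 ≤ S →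
      ∫⁻ l, .ofReal (exp (-l * S)) ∂ν =
        .ofReal ((1 / (1 + S)) ^ (3 / 2 : ℝ) * (h (1 / (2 + S))).re) := by
  have cm := circleMap_mem_closedBall (0 : ℂ) zero_le_two
  obtain ⟨q, hq⟩ : ∃ q : ℝ → ℂ, q = fun t => h (circleMap 0 2 t) - 1 := ⟨_, rfl⟩
  obtain ⟨z, hz⟩ : ∃ z : ℝ → ℂ, z = fun t => (circleMap 0 2 t)⁻¹ := ⟨_, rfl⟩
  have qc : Continuous q :=
    hq ▸ (hd.continuousOn.comp_continuous (continuous_circleMap 0 2) cm).sub continuous_const
  have zc : Continuous z :=
    hz ▸ (continuous_circleMap 0 2).inv₀ fun _ => circleMap_ne_center two_ne_zero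
  have qb : ∀ t, ‖q t‖ ≤ 1 / 2 := fun t => hq ▸ hb _ (cm t)
  have zb : ∀ t, ‖z t‖ = 1 / 2 := fun t => by simp [hz]
  have G0 : 0 < 2 * π * Gamma (3 / 2) := by positivity
  let k : ℝ → ℝ → ℝ := fun t m => (q t * z t * Complex.exp (-(1 - z t) * m)).re
  let o : ℝ → ℝ → ℝ := fun t m => (1 + (q t).re) * (exp (-(1 / 2) * m) / 2)
  have ko : ∀ t m, 0 < m → |k t m| ≤ o t m := fun t m hm => by
    refine (Complex.abs_re_le_norm _).trans ?_
    rw [norm_mul, norm_mul, zb, Complex.norm_exp]
    have h1 := (abs_le.1 ((Complex.abs_re_le_norm _).trans (qb t))).1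
    have h2 := (Complex.re_le_norm _).trans (zb t).le
    have : exp (-(1 - z t) * m).re ≤ exp (-(1 / 2) * m) := exp_le_exp.2 (by simp; nlinarith)
    simp only [o]
    nlinarith [qb t, exp_pos (-(1 - z t) * m).re, exp_pos (-(1 / 2) * m)]
  let d : ℝ × ℝ → ℝ → ℝ := fun p l =>
    exp (-l) * (o p.1 p.2 * √l + k p.1 p.2 * √(l - |p.2|)) / (2 * π * Gamma (3 / 2))
  have dm : Measurable fun x : (ℝ × ℝ) × ℝ => d x.1 x.2 := by
    refine Continuous.measurable ?_
    simp only [d, o, k]
    fun_prop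
  let P := (volume.restrict (Ioc 0 (2 * π))).prod (volume.restrict (Ioi (0 : ℝ)))
  have M : Measurable fun l => ∫⁻ p, .ofReal (d p l) ∂P := dm.ennreal_ofReal.lintegral_prod_left'
  refine ⟨volume.withDensity fun l => ∫⁻ p, .ofReal (d p l) ∂P, inferInstance,
    (ae_withDensity_iff M).2 (.of_forall fun l hl => not_le.1 fun h => hl ?_), fun S hS => ?_⟩
  · simp [d, sqrt_eq_zero_of_nonpos h, fun m : ℝ => sqrt_eq_zero_of_nonpos
      (show l - |m| ≤ 0 by linarith [abs_nonneg m])]
  have hw : 0 < 1 + S := by positivity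
  have dm' : Measurable fun x : (ℝ × ℝ) × ℝ =>
      ENNReal.ofReal (d x.1 x.2) * .ofReal (exp (-x.2 * S)) := by fun_prop
  rw [lintegral_withDensity_eq_lintegral_mul _ M (by fun_prop)]
  simp only [Pi.mul_apply]
  rw [lintegral_congr fun l => (lintegral_mul_const' _ _ ENNReal.ofReal_ne_top).symm,
    ← lintegral_lintegral_swap dm'.aemeasurable,
    lintegral_prod _ dm'.lintegral_prod_right'.aemeasurable]
  set c := (1 / (1 + S)) ^ (3 / 2 : ℝ) / (2 * π)
  have c0 : 0 ≤ c := by positivity
  have n1 : ∀ t m, m ∈ Ioi (0 : ℝ) → 0 ≤ c * (o t m + k t m * exp (-((1 + S) * m))) := fun t m hm => by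
    have := abs_le.1 (ko t m hm)
    have e1 : exp (-((1 + S) * m)) ≤ 1 := exp_le_one_iff.2 (by simpa using (mul_pos hw hm).le)
    exact mul_nonneg c0 (by nlinarith [exp_pos (-((1 + S) * m))])
  have L1 : ∀ t m, m ∈ Ioi (0 : ℝ) → ∫⁻ l, .ofReal (d (t, m) l) * .ofReal (exp (-l * S)) =
      .ofReal (c * (o t m + k t m * exp (-((1 + S) * m)))) := fun t m hm => by
    obtain ⟨a1, a2⟩ := lv1 (m := 0) hw
    obtain ⟨b1, b2⟩ := lv1 (m := m) hw
    have e : ∀ l, d (t, m) l * exp (-l * S) = (o t m * (exp (-((1 + S) * l)) * √(l - 0)) +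
        k t m * (exp (-((1 + S) * l)) * √(l - m))) / (2 * π * Gamma (3 / 2)) := fun l => by
      simp only [d, abs_of_pos (show 0 < m from hm), sub_zero]
      rw [show -((1 + S) * l) = -l + -l * S by ring, exp_add]
      ring
    rw [lintegral_congr fun l => (ENNReal.ofReal_mul' (exp_pos _).le).symm, lintegral_congr fun l =>
      congrArg _ (e l), ← ofReal_integral_eq_lintegral_ofReal
      (((a1.const_mul _).fun_add (b1.const_mul _)).div_const _) (.of_forall fun l => ?_), integral_div,
      integral_add (a1.const_mul _) (b1.const_mul _), integral_const_mul, integral_const_mul, a2, b2]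
    · congr 1
      simp only [c, mul_zero, neg_zero, exp_zero]
      field_simp
    · have := abs_le.1 (ko t m hm)
      have s : √(l - m) ≤ √(l - 0) := sqrt_le_sqrt (by linarith [hm.out])
      have s' := mul_le_mul_of_nonneg_left s (exp_pos (-((1 + S) * l))).le
      have : 0 ≤ exp (-((1 + S) * l)) * √(l - m) := by positivity
      exact div_nonneg (by nlinarith) G0.le
  have r : ∀ t, (-(2 + S - z t)).re < 0 := fun t => by
    have := (Complex.re_le_norm _).trans (zb t).le
    simp
    linarith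
  have L2 : ∀ t, Integrable (fun m => c * (o t m + k t m * exp (-((1 + S) * m))))
      (volume.restrict (Ioi 0)) ∧ ∫ m in Ioi 0, c * (o t m + k t m * exp (-((1 + S) * m))) =
        c * (1 + (q t + q t * z t / (2 + S - z t))).re := fun t => by
    have e : ∀ m, k t m * exp (-((1 + S) * m)) =
        (q t * z t * Complex.exp (-(2 + S - z t) * m)).re := fun m => by
      rw [← Complex.re_mul_ofReal, mul_assoc, Complex.ofReal_exp, ← Complex.exp_add]
      push_cast
      ring_nf
    have i1 := ((integrableOn_exp_mul_Ioi (a := -(1 / 2)) (by norm_num) 0).div_const 2).const_mul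
      (1 + (q t).re)
    have i2 := (integrableOn_exp_mul_complex_Ioi (r t) 0).const_mul (q t * z t)
    simp only [e]
    refine ⟨(i1.add i2.re).const_mul _, ?_⟩
    rw [integral_const_mul]
    erw [integral_add i1 i2.re, integral_re i2]
    rw [integral_const_mul, integral_const_mul, integral_div, integral_exp_mul_Ioi (by norm_num),
      integral_exp_mul_complex_Ioi (r t), neg_div_neg_eq, neg_div_neg_eq]
    simp [div_eq_mul_inv, add_assoc]
  have ne : ∀ t, 2 + S - z t ≠ 0 := fun t h => by simpa [h] using r t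
  have ic : Continuous fun t => q t + q t * z t / (2 + S - z t) := by fun_prop (disch := exact ne)
  have i4 := (ic.intervalIntegrable (μ := volume) 0 (2 * π)).1
  have i3 := (integrable_const (1 : ℂ)).fun_add i4
  rw [lintegral_congr fun t => (setLIntegral_congr_fun measurableSet_Ioi (L1 t)).trans
      (ofReal_integral_eq_lintegral_ofReal (L2 t).1 ((ae_restrict_mem measurableSet_Ioi).mono
        (n1 t))).symm, lintegral_congr fun t => congrArg _ (L2 t).2]
  erw [← ofReal_integral_eq_lintegral_ofReal (i3.re.const_mul c) (.of_forall fun t =>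
      (setIntegral_nonneg measurableSet_Ioi (n1 t)).trans_eq (L2 t).2)]
  rw [integral_const_mul, integral_re i3, integral_add (integrable_const _) i4]
  have S2 : (2 + S : ℂ) ≠ 0 := by exact_mod_cast (by positivity : 2 + S ≠ 0)
  have hv : (1 / (2 + S) : ℂ) ∈ ball (0 : ℂ) 2 := by
    rw [mem_ball_zero_iff, show (1 / (2 + S) : ℂ) = (1 / (2 + S) : ℝ) by push_cast; rfl,
      Complex.norm_real, norm_of_nonneg (by positivity), div_lt_iff₀ (by positivity)]
    linarith
  have C := (hd.sub_const 1).circleIntegral_sub_inv_smul hv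
  rw [circleIntegral, intervalIntegral.integral_of_le (by positivity), integral_congr_ae
    (g := fun t => Complex.I * (q t + q t * z t / (2 + S - z t))) (.of_forall fun t => ?_),
    integral_const_mul, smul_eq_mul, mul_comm _ Complex.I, mul_assoc] at C
  · rw [mul_left_cancel₀ Complex.I_ne_zero C]
    congr 1
    simp [c, pi_pos.le]
    field_simp
    ring
  · have n0 : circleMap 0 2 t ≠ 0 := circleMap_ne_center two_ne_zero
    have n1 := ne t
    simp only [hq, hz, deriv_circleMap, smul_eq_mul] at n1 ⊢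
    generalize circleMap 0 2 t = y at *
    have n2 : (2 + S) * y - 1 ≠ 0 := fun h => n1 (by field_simp; linear_combination h)
    have n3 : y * (2 + S) - 1 ≠ 0 := by rwa [mul_comm]
    field_simp
    ring

end Pool.Agent.H.MP_217de7_gt
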