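import Pool.Agent.H.MP_217de7_gt.A
import Pool.Agent.H.MP_217de7_gt.B

set_option autoImplicit false

namespace Pool.Agent.H.MP_217de7_gt

open Set Metric MeasureTheory Real Filter Topology

/-- square root of the logarithmic Gauss parameter -/
noncomputable def A (x : ℝ) : ℝ := √(x / (1 - x))

/-- first dual coordinate -/
noncomputable def ro (e x : ℝ) : ℝ := A x * exp (-e * (1 - x) * x)

/-- slope of the second dual coordinate -/
noncomputable def th (e x : ℝ) : ℝ := A x * exp (-e * (1 - x))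

/-- squared direction -/
noncomputable def sq' (e x : ℝ) : ℝ := (1 / x - 2) * exp (e * (1 - x) ^ 2)

/-- real curvature correction -/
def Er (e x : ℝ) : ℝ := 2 * e * (1 - x) * x * (1 - 2 * x)

/-- second derivative of the norm -/
noncomputable def F (e x : ℝ) : ℝ := A x ^ 3 * exp (-e * (1 - x)) * (1 - Er e x) / (1 + Er e x)

/-- the inverse parametrisation and its properties -/
structure Par (e : ℝ) (ξ : ℝ → ℝ) : Prop where
  pos : ∀ y, 0 < ξ y
  lt : ∀ y, ξ y < 1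
  eq : ∀ y, sq' e (ξ y) = y ^ 2
  diff : Differentiable ℝ ξ
  er : ∀ y, |Er e (ξ y)| < 1
  uniq : ∀ x y, 0 < x → x < 1 → sq' e x = y ^ 2 → ξ y = x
  lim : Tendsto ξ atTop (𝓝 0)
  gm : ∃ ν : Measure ℝ, SFinite ν ∧ (∀ᵐ l ∂ν, 0 < l) ∧ ∀ y : ℝ,
    ∫⁻ l, .ofReal (exp (-l * y ^ 2)) ∂ν = .ofReal (F e (ξ y))

theorem A_sq {x : ℝ} (h0 : 0 < x) (h1 : x < 1) : A x ^ 2 = x / (1 - x) :=
  sq_sqrt (div_pos h0 (sub_pos.2 h1)).le

theorem A_pos {x : ℝ} (h0 : 0 < x) (h1 : x < 1) : 0 < A x := sqrt_pos.2 (div_pos h0 (sub_pos.2 h1))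

theorem par {e : ℝ} (h : Sm e) : ∃ ξ, Par e ξ := by
  obtain ⟨X, hX⟩ := inv (hasD e) (fun x hx => (h x hx).1.le) fun x hx => (h x hx).2.1.le
  have vb : ∀ y : ℝ, ((1 / (2 + y ^ 2) : ℝ) : ℂ) ∈ ball (0 : ℂ) (5 / 2) := fun y => by
    rw [mem_ball_zero_iff, Complex.norm_real, norm_of_nonneg (by positivity),
      div_lt_iff₀ (by positivity)]
    nlinarith [sq_nonneg y]
  obtain ⟨ξ, hξ⟩ : ∃ ξ : ℝ → ℝ, ξ = fun y => (X ((1 / (2 + y ^ 2) : ℝ) : ℂ)).re := ⟨_, rfl⟩
  have re : ∀ y, X ((1 / (2 + y ^ 2) : ℝ) : ℂ) = ξ y := fun y => by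
    obtain ⟨-, a, b, c⟩ := hX _ (vb y)
    refine hξ ▸ (Complex.conj_eq_iff_re.1 (c _ (by simpa using a) ?_)).symm
    conv_lhs => rw [b]
    simp [D, ← Complex.exp_conj, map_ofNat]
  have Dr : ∀ x : ℝ, D e x = (2 * x + (1 - 2 * x) * exp (e * (1 - x) ^ 2) : ℝ) := fun x => by
    simp [D]
  have nb : ∀ y, ((ξ y : ℝ) : ℂ) ∈ closedBall (0 : ℂ) 3 := fun y =>
    mem_closedBall_zero_iff.2 (re y ▸ (hX _ (vb y)).2.1)
  have fx : ∀ y, ξ y * (2 + y ^ 2) = 2 * ξ y + (1 - 2 * ξ y) * exp (e * (1 - ξ y) ^ 2) := fun y => by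
    have := (hX _ (vb y)).2.2.1
    rw [re, Dr, ← Complex.ofReal_mul, Complex.ofReal_inj] at this
    rwa [← eq_div_iff (by positivity), ← one_div_mul_eq_div]
  have bd : ∀ y, |ξ y * (2 + y ^ 2) - 1| < 1 / 10 := fun y => by
    have := (h _ (nb y)).1
    rwa [Dr, ← fx, ← Complex.ofReal_one, ← Complex.ofReal_sub, Complex.norm_real] at this
  have p0 : ∀ y, 0 < ξ y := fun y =>
    (mul_pos_iff_of_pos_right (show 0 < 2 + y ^ 2 by positivity)).1
      (by linarith [(abs_lt.1 (bd y)).1])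
  have p1 : ∀ y, ξ y < 1 := fun y => by nlinarith [(abs_lt.1 (bd y)).2, p0 y, sq_nonneg y]
  refine ⟨ξ, p0, p1, fun y => ?_, fun y => ?_, fun y => ?_, fun x y h0 h1 hx => ?_, ?_, ?_⟩
  · have := (p0 y).ne'
    rw [sq']
    field_simp
    linarith [fx y]
  · exact hξ ▸ (hX _ (vb y)).1.hasDerivAt.real_of_complex.differentiableAt.comp y
      (f := fun y : ℝ => 1 / (2 + y ^ 2)) (by fun_prop (disch := positivity))
  · have := (h _ (nb y)).2.2.2.1
    rwa [show E e (ξ y) = Er e (ξ y) by simp [E, Er], Complex.norm_real] at this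
  · refine Complex.ofReal_inj.1 ((re y).symm.trans ((hX _ (vb y)).2.2.2 x ?_ ?_).symm)
    · rw [Complex.norm_real, norm_of_nonneg h0.le]
      linarith
    · rw [Dr, ← Complex.ofReal_mul, Complex.ofReal_inj, ← hx, sq']
      have : 2 + (1 / x - 2) * exp (e * (1 - x) ^ 2) ≠ 0 := by rw [← sq', hx]; positivity
      rw [one_div_mul_eq_div, eq_div_iff this]
      field_simp
  · obtain ⟨a, -, b, -⟩ := hX 0 (mem_ball_self (by norm_num))
    have t : Tendsto (fun y : ℝ => ((1 / (2 + y ^ 2) : ℝ) : ℂ)) atTop (𝓝 0) := by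
      simpa only [Complex.ofReal_zero] using (tendsto_const_nhds.div_atTop (tendsto_atTop_add_const_left
        _ 2 (tendsto_pow_atTop two_ne_zero))).ofReal
    have := (Complex.continuous_re.tendsto _).comp (a.continuousAt.tendsto.comp t)
    rw [b, zero_mul, Complex.zero_re] at this
    exact hξ ▸ this
  · have s : closedBall (0 : ℂ) 2 ⊆ ball 0 (5 / 2) := closedBall_subset_ball (by norm_num)
    obtain ⟨ν, a, b, c⟩ := gm (h := fun v => Hc e (X v)) (fun v hv => ((H_diff h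
      (hX v (s hv)).2.1).comp v (hX v (s hv)).1).differentiableWithinAt) fun v hv =>
      (h _ (mem_closedBall_zero_iff.2 (hX v (s hv)).2.1)).2.2.2.2.le
    refine ⟨ν, a, b, fun y => (c _ (sq_nonneg y)).trans (congrArg _ ?_)⟩
    have u : 0 < 1 - ξ y := sub_pos.2 (p1 y)
    have u' : (1 - ξ y : ℂ) ≠ 0 := by exact_mod_cast u.ne'
    have w : W e (ξ y) = ((1 + y ^ 2) * A (ξ y) ^ 2 : ℝ) := by
      have f := congrArg Complex.ofReal (fx y)
      rw [A_sq (p0 y) (p1 y), W]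
      push_cast at f ⊢
      field_simp
      linear_combination (1 - 2 * ξ y) * Ph_eq (e * (1 - ξ y) ^ 2) - f
    have a0 := A_pos (p0 y) (p1 y)
    rw [show (1 / (2 + (y ^ 2 : ℝ)) : ℂ) = (1 / (2 + y ^ 2) : ℝ) by push_cast; rfl, re, Hc, w,
      show (3 / 2 : ℂ) = (3 / 2 : ℝ) by push_cast; rfl, ← Complex.ofReal_cpow (by positivity),
      show E e (ξ y) = Er e (ξ y) by simp [E, Er]]
    norm_cast
    rw [mul_rpow (by positivity) (by positivity), ← rpow_natCast (A _), ← rpow_mul a0.le, one_div,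
      inv_rpow (by positivity), F, ← rpow_natCast (A _)]
    have : (1 + y ^ 2) ^ (3 / 2 : ℝ) ≠ 0 := by positivity
    norm_num
    field_simp

end Pool.Agent.H.MP_217de7_gt
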