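import Pool.Agent.H.MP_217de7_gt.C

set_option autoImplicit false

namespace Pool.Agent.H.MP_217de7_gt

open Set Metric MeasureTheory Real Filter Topology

variable {e : ℝ} {ξ η : ℝ → ℝ}

theorem hasA {x : ℝ} (h0 : 0 < x) (h1 : x < 1) : HasDerivAt A (A x / (2 * x * (1 - x))) x := by
  have u : 1 - x ≠ 0 := (sub_pos.2 h1).ne'
  have a := A_pos h0 h1
  refine (((hasDerivAt_id' x).fun_div ((hasDerivAt_id' x).const_sub 1) u).sqrt
    (div_ne_zero h0.ne' u)).congr_deriv ?_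
  rw [← A, div_eq_div_iff (by positivity) (by positivity),
    show A x * (2 * A x) = 2 * A x ^ 2 by ring, A_sq h0 h1]
  field_simp
  ring

theorem Par.one (h : Par e ξ) (y : ℝ) : 0 < 1 - Er e (ξ y) ∧ 0 < 1 + Er e (ξ y) :=
  ⟨by linarith [(abs_lt.1 (h.er y)).2], by linarith [(abs_lt.1 (h.er y)).1]⟩

theorem Par.F0 (h : Par e ξ) (y : ℝ) : 0 ≤ F e (ξ y) := by
  have := h.one y
  have := this.1
  have := A_pos (h.pos y) (h.lt y)
  exact div_nonneg (by positivity) (h.one y).2.le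

theorem Par.der (h : Par e ξ) (y : ℝ) :
    HasDerivAt ξ (-2 * y * ξ y ^ 2 / (exp (e * (1 - ξ y) ^ 2) * (1 + Er e (ξ y)))) y := by
  have d := (h.diff y).hasDerivAt
  have p := (h.pos y).ne'
  have := ((((hasDerivAt_const y 1).fun_div d p).sub_const 2).fun_mul
    ((((d.const_sub 1).fun_pow 2).const_mul e).exp)).unique
    (((hasDerivAt_id' y).fun_pow 2).congr_of_eventuallyEq (.of_forall h.eq))
  refine d.congr_deriv ?_
  have q := (h.one y).2.ne'
  rw [eq_div_iff (by positivity), Er]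
  push_cast at this
  field_simp at this
  linear_combination -this

theorem Par.dro (h : Par e ξ) (y : ℝ) : HasDerivAt (fun y => ro e (ξ y)) (-y * F e (ξ y)) y := by
  have d := h.der y
  refine (((hasA (h.pos y) (h.lt y)).comp y d).fun_mul
    (((d.const_sub 1).const_mul (-e)).fun_mul d).exp).congr_deriv ?_
  have q := (h.one y).2.ne'
  have p := (h.pos y).ne'
  have u := (sub_pos.2 (h.lt y)).ne'
  rw [F, pow_succ (A _) 2, A_sq (h.pos y) (h.lt y), show exp (-e * (1 - ξ y)) =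
    exp (-e * (1 - ξ y) * ξ y) / exp (e * (1 - ξ y) ^ 2) by rw [← exp_sub]; ring_nf]
  simp only [Function.comp]
  field_simp
  rw [Er]
  ring

theorem Par.dta (h : Par e ξ) (y : ℝ) : HasDerivAt (fun y => y * th e (ξ y)) (F e (ξ y)) y := by
  have d := h.der y
  refine ((hasDerivAt_id' y).fun_mul (((hasA (h.pos y) (h.lt y)).comp y d).fun_mul
    ((d.const_sub 1).const_mul (-e)).exp)).congr_deriv ?_
  have q := (h.one y).2.ne'
  have p := (h.pos y).ne'
  have u := (sub_pos.2 (h.lt y)).ne'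
  have s := h.eq y
  rw [F, pow_succ (A _) 2, A_sq (h.pos y) (h.lt y)]
  rw [sq'] at s
  simp only [Function.comp]
  field_simp at s ⊢
  rw [Er]
  linear_combination A (ξ y) * (1 + 2 * e * ξ y * (1 - ξ y)) * s

theorem Par.even (h : Par e ξ) (y : ℝ) : ξ (-y) = ξ y :=
  h.uniq _ _ (h.pos y) (h.lt y) (by rw [h.eq, neg_sq])

/-- the norm in the affine chart -/
noncomputable def ph (e : ℝ) (ξ : ℝ → ℝ) (t : ℝ) : ℝ := ro e (ξ t) + t * (t * th e (ξ t))

theorem Par.lims (h : Par e ξ) : Tendsto (fun y => ro e (ξ y)) atTop (𝓝 0) ∧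
    Tendsto (fun y => y * th e (ξ y)) atTop (𝓝 (exp (-e / 2))) := by
  have c1 : ContinuousAt (ro e) 0 := by unfold ro A; fun_prop (disch := simp)
  have c2 : ContinuousAt (fun x : ℝ => √((1 - 2 * x) / (1 - x) *
    exp (e * (1 - x) ^ 2 - 2 * e * (1 - x)))) 0 := by fun_prop (disch := simp)
  refine ⟨by simpa [ro, A, Function.comp_def] using c1.tendsto.comp h.lim, ?_⟩
  have := c2.tendsto.comp h.lim
  rw [exp_half]
  refine (this.congr' ((eventually_ge_atTop 0).mono fun y hy => ?_)).trans_eq (by ring_nf)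
  have := A_pos (h.pos y) (h.lt y)
  have p := (h.pos y).ne'
  refine (congrArg sqrt ?_).trans (sqrt_sq (by unfold th; positivity))
  rw [mul_pow y, ← h.eq y, th, mul_pow, A_sq (h.pos y) (h.lt y), sq', ← exp_nat_mul,
    sub_eq_add_neg (e * _), exp_add]
  field_simp
  ring_nf

theorem Par.half (h : Par e ξ) (t : ℝ) : IntegrableOn (fun y => (y - t) * F e (ξ y)) (Ioi t) ∧
    ∫ y in Ioi t, (y - t) * F e (ξ y) = ph e ξ t - t * exp (-e / 2) := by
  have d : ∀ y ∈ Ici t, HasDerivAt (fun y => -ro e (ξ y) - t * (y * th e (ξ y)))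
      ((y - t) * F e (ξ y)) y :=
    fun y _ => ((h.dro y).fun_neg.fun_sub ((h.dta y).const_mul t)).congr_deriv (by ring)
  have p : ∀ y ∈ Ioi t, 0 ≤ (y - t) * F e (ξ y) := fun y hy =>
    mul_nonneg (sub_pos.2 hy).le (h.F0 y)
  have l := h.lims.1.neg.sub (h.lims.2.const_mul t)
  exact ⟨integrableOn_Ioi_deriv_of_nonneg' d p l,
    (integral_Ioi_of_hasDerivAt_of_nonneg' d p l).trans (by rw [ph]; ring)⟩

theorem two {g : ℝ → ℝ} (t : ℝ) (h1 : IntegrableOn g (Ioi t))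
    (h2 : IntegrableOn (fun y => g (-y)) (Ioi (-t))) :
    Integrable g ∧ ∫ y, g y = (∫ y in Ioi (-t), g (-y)) + ∫ y in Ioi t, g y := by
  have : IntegrableOn g (Iic t) := by
    simpa using (integrableOn_Iic_iff_integrableOn_Iio).2 (h2.comp_neg_Iio (c := t))
  refine ⟨integrableOn_univ.1 (Iic_union_Ioi (a := t) ▸ this.union h1), ?_⟩
  rw [integral_comp_neg_Ioi, neg_neg, intervalIntegral.integral_Iic_add_Ioi this h1]

theorem Par.int (h : Par e ξ) (t : ℝ) : Integrable (fun y => |t - y| * F e (ξ y)) ∧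
    ∫ y, |t - y| * F e (ξ y) = 2 * ph e ξ t := by
  have e1 : EqOn (fun y => (y - t) * F e (ξ y)) (fun y => |t - y| * F e (ξ y)) (Ioi t) :=
    fun y hy => by simp only [abs_sub_comm t, abs_of_pos (sub_pos.2 hy.out)]
  have e2 : EqOn (fun y => (y - -t) * F e (ξ y)) (fun y => |t - -y| * F e (ξ (-y))) (Ioi (-t)) :=
    fun y hy => by
      simp only [h.even]
      rw [abs_of_pos (by linarith [hy.out])]
      ring
  obtain ⟨a, b⟩ := two t ((h.half t).1.congr_fun e1 measurableSet_Ioi)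
    ((h.half (-t)).1.congr_fun e2 measurableSet_Ioi)
  refine ⟨a, ?_⟩
  rw [b, ← setIntegral_congr_fun measurableSet_Ioi e1, ← setIntegral_congr_fun measurableSet_Ioi e2,
    (h.half _).2, (h.half _).2, ph, ph, h.even]
  ring

theorem Par.int0 (h : Par e ξ) : Integrable (fun y => F e (ξ y)) ∧
    ∫ y, F e (ξ y) = 2 * exp (-e / 2) := by
  have i := integrableOn_Ioi_deriv_of_nonneg' (a := 0) (fun y _ => h.dta y) (fun y _ => h.F0 y) h.lims.2
  have j := integral_Ioi_of_hasDerivAt_of_nonneg' (a := 0) (fun y _ => h.dta y) (fun y _ => h.F0 y)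
    h.lims.2
  obtain ⟨a, b⟩ := two 0 i (by simpa [h.even] using i)
  exact ⟨a, by simp only [b, h.even, neg_zero, j]; ring⟩

theorem Par.low (h : Par e ξ) (t : ℝ) : |t| * exp (-e / 2) ≤ ph e ξ t := by
  have : ∀ t, t * exp (-e / 2) ≤ ph e ξ t := fun t => sub_nonneg.1 ((h.half t).2 ▸
    setIntegral_nonneg measurableSet_Ioi fun y hy => mul_nonneg (sub_pos.2 hy).le (h.F0 y))
  rcases abs_choice t with p | p <;> rw [p]
  · exact this t
  · simpa [ph, h.even] using this (-t)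

theorem Par.tan (h : Par e ξ) (t s : ℝ) : ro e (ξ s) + t * (s * th e (ξ s)) ≤ ph e ξ t := by
  have d : ∀ y, HasDerivAt (fun y => ro e (ξ y) + t * (y * th e (ξ y))) ((t - y) * F e (ξ y)) y :=
    fun y => ((h.dro y).fun_add ((h.dta y).const_mul t)).congr_deriv (by ring)
  have c := (continuous_iff_continuousAt.2 fun y => (d y).continuousAt).continuousOn (s := uIcc s t)
  rcases lt_trichotomy s t with p | rfl | p
  · obtain ⟨y, hy, q⟩ := exists_hasDerivAt_eq_slope _ _ p (uIcc_of_le p.le ▸ c) fun y _ => d y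
    have := mul_nonneg (sub_pos.2 hy.2).le (h.F0 y)
    rw [q, le_div_iff₀ (sub_pos.2 p)] at this
    linarith [ph.eq_1 e ξ t]
  · exact le_rfl
  · obtain ⟨y, hy, q⟩ := exists_hasDerivAt_eq_slope _ _ p (uIcc_of_ge p.le ▸ c) fun y _ => d y
    have := mul_nonpos_of_nonpos_of_nonneg (sub_neg.2 hy.1).le (h.F0 y)
    rw [q, div_le_iff₀ (sub_pos.2 p)] at this
    linarith [ph.eq_1 e ξ t]

theorem Par.ro0 (h : Par e ξ) (t : ℝ) : 0 < ro e (ξ t) :=
  mul_pos (A_pos (h.pos t) (h.lt t)) (exp_pos _)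

theorem Par.inv (h : Par e ξ) (t : ℝ) : ro (-e) (ξ t) * ph e ξ t = 1 := by
  have p := (h.pos t).ne'
  have u := (sub_pos.2 (h.lt t)).ne'
  have e1 : exp (- -e * (1 - ξ t) * ξ t) * exp (-e * (1 - ξ t) * ξ t) = 1 := by
    rw [← exp_add]; simp
  have e2 : exp (- -e * (1 - ξ t) * ξ t) * exp (e * (1 - ξ t) ^ 2) * exp (-e * (1 - ξ t)) = 1 := by
    rw [← exp_add, ← exp_add, exp_eq_one_iff]; ring
  have a := A_sq (h.pos t) (h.lt t)
  rw [ph, ← mul_assoc t, ← sq, ← h.eq, ro, ro, th, sq']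
  have : ξ t / (1 - ξ t) + (1 / ξ t - 2) * (ξ t / (1 - ξ t)) = 1 := by field_simp; ring
  linear_combination A (ξ t) ^ 2 * e1 + (1 / ξ t - 2) * A (ξ t) ^ 2 * e2 +
    (1 + (1 / ξ t - 2)) * a + this

theorem Par.dual (h : Par e ξ) (h' : Par (-e) η) (t : ℝ) :
    η (t * th e (ξ t) / ro e (ξ t)) = ξ t ∧
      t * th e (ξ t) / ro e (ξ t) * th (-e) (ξ t) = t * ro (-e) (ξ t) := by
  have a := (A_pos (h.pos t) (h.lt t)).ne'
  refine ⟨h'.uniq _ _ (h.pos t) (h.lt t) ?_, ?_⟩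
  · rw [div_pow, mul_pow, ← h.eq, sq', sq', th, ro, mul_pow, mul_pow, ← exp_nat_mul, ← exp_nat_mul,
      mul_div_assoc, mul_div_mul_left _ _ (pow_ne_zero 2 a), ← exp_sub, mul_assoc, ← exp_add]
    ring_nf
  · rw [th, th, ro, ro, mul_div_assoc, mul_div_mul_left _ _ a, ← exp_sub, mul_assoc,
      mul_left_comm _ (A _), ← exp_add]
    ring_nf

end Pool.Agent.H.MP_217de7_gt
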