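import Pool.Agent.H.MP_217de7_gt.E

set_option autoImplicit false

namespace Pool.Agent.H.MP_217de7_gt

open Set Metric MeasureTheory Real Filter Topology ProbabilityTheory
open scoped ENNReal

variable {e : ℝ} {ξ η : ℝ → ℝ}

theorem mix {ν : Measure ℝ} [SFinite ν] (hν : ∀ᵐ l ∂ν, 0 < l) {G : ℝ → ℝ≥0∞}
    (hG : ∀ y, ∫⁻ l, .ofReal (exp (-l * y ^ 2)) ∂ν = G y) {f : ℝ → ℝ≥0∞} (hf : Measurable f) :
    ∫⁻ l, ∫⁻ g, f ((√(2 * l))⁻¹ * g) ∂gaussianReal 0 1
      ∂ν.withDensity (fun l => .ofReal √(π / l)) = ∫⁻ y, f y * G y := by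
  have m : Measurable fun x : ℝ × ℝ => f ((√(2 * x.1))⁻¹ * x.2) := by fun_prop
  simp_rw [← hG, fun y => (lintegral_const_mul (μ := ν) (f y)
    (f := fun l => .ofReal (exp (-l * y ^ 2))) (by fun_prop)).symm]
  rw [lintegral_lintegral_swap (ν := ν) (by fun_prop)]
  erw [lintegral_withDensity_eq_lintegral_mul _ (by fun_prop) m.lintegral_prod_right']
  refine lintegral_congr_ae (hν.mono fun l hl => ?_)
  have v : (NNReal.mk ((√(2 * l))⁻¹ ^ 2) (sq_nonneg _) * 1) ≠ 0 := by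
    rw [mul_one, ← NNReal.coe_ne_zero, NNReal.coe_mk]
    positivity
  simp only [Pi.mul_apply]
  rw [← lintegral_map hf (by fun_prop), gaussianReal_map_const_mul, gaussianReal_of_var_ne_zero _ v,
    lintegral_withDensity_eq_lintegral_mul _ (measurable_gaussianPDF _ _) hf,
    ← lintegral_const_mul _ (by fun_prop)]
  refine lintegral_congr fun y => ?_
  rw [Pi.mul_apply, ← mul_assoc, mul_comm, gaussianPDF, ← ENNReal.ofReal_mul (sqrt_nonneg _),
    gaussianPDFReal]
  simp only [mul_one, NNReal.coe_mk, inv_pow, sq_sqrt (show 0 ≤ 2 * l by positivity), mul_zero, sub_zero]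
  rw [show 2 * π * (2 * l)⁻¹ = π / l by field_simp, mul_inv_cancel_left₀ (by positivity)]
  congr 3
  field_simp

/-- the planar norm -/
noncomputable def N (e : ℝ) (ξ : ℝ → ℝ) (r t : ℝ) : ℝ :=
  if r = 0 then |t| * exp (-e / 2) else r * ph e ξ (t / r)

/-- representation of a planar norm as a Gaussian mixture -/
def Rep (M : ℝ → ℝ → ℝ) : Prop := ∃ (ρ : Measure ℝ) (σ : ℝ → ℝ) (c : ℝ), IsProbabilityMeasure ρ ∧
  Measurable σ ∧ ∀ r t, 0 ≤ r → 0 ≤ M r t ∧
    ∫⁻ l, ∫⁻ g, ‖c * (t - σ l * g * r)‖ₑ ∂gaussianReal 0 1 ∂ρ = .ofReal (M r t)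

/-- `M'` is the dual norm of `M` -/
def Dual (M M' : ℝ → ℝ → ℝ) : Prop :=
  (∀ r t p s, 0 ≤ r → 0 ≤ p → r * p + t * s ≤ M r t * M' p s) ∧
    ∀ p s, 0 ≤ p → ∃ r t, 0 ≤ r ∧ M r t ≤ 1 ∧ r * p + t * s = M' p s

theorem Par.Nlow (h : Par e ξ) {r : ℝ} (hr : 0 ≤ r) (t : ℝ) : |t| * exp (-e / 2) ≤ N e ξ r t := by
  rw [N]
  split_ifs with p
  · exact le_rfl
  · have := mul_le_mul_of_nonneg_left (h.low (t / r)) hr
    rwa [abs_div, abs_of_nonneg hr, ← mul_assoc, mul_div_cancel₀ _ p] at this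

theorem Par.rep (h : Par e ξ) : Rep (N e ξ) := by
  obtain ⟨ν, _, a, b⟩ := h.gm
  have c0 := exp_pos (-e / 2)
  have i0 : ∫⁻ y, .ofReal (F e (ξ y)) = .ofReal (2 * exp (-e / 2)) := by
    rw [← h.int0.2, ofReal_integral_eq_lintegral_ofReal h.int0.1 (.of_forall h.F0)]
  refine ⟨(ENNReal.ofReal (2 * exp (-e / 2)))⁻¹ • ν.withDensity (fun l => .ofReal √(π / l)),
    fun l => (√(2 * l))⁻¹, exp (-e / 2), ⟨?_⟩, by fun_prop, fun r t hr =>
      ⟨le_trans (by positivity) (h.Nlow hr t), ?_⟩⟩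
  · have := mix a b (f := fun _ => 1) measurable_const
    simp only [lintegral_const, measure_univ, one_mul, i0] at this
    rw [Measure.smul_apply, this, smul_eq_mul, ENNReal.inv_mul_cancel (by simpa using c0) ENNReal.ofReal_ne_top]
  · rw [lintegral_smul_measure, mix a b (f := fun y => ‖exp (-e / 2) * (t - y * r)‖ₑ) (by fun_prop),
      smul_eq_mul, ← ENNReal.div_eq_inv_mul, eq_comm,
      ENNReal.eq_div_iff (by simpa using c0) ENNReal.ofReal_ne_top, eq_comm,
      ← ENNReal.ofReal_mul (by positivity), N]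
    split_ifs with p
    · simp only [p, mul_zero, sub_zero]
      rw [lintegral_const_mul' _ _ enorm_ne_top, i0, enorm_eq_ofReal_abs, mul_comm,
        ← ENNReal.ofReal_mul (by positivity), abs_mul, abs_of_pos c0, mul_comm |t|]
    · have r0 := hr.lt_of_ne' p
      rw [show 2 * exp (-e / 2) * (r * ph e ξ (t / r)) = exp (-e / 2) * r * (2 * ph e ξ (t / r)) by ring,
        ← (h.int _).2, ← integral_const_mul, ofReal_integral_eq_lintegral_ofReal
          ((h.int _).1.const_mul _) (.of_forall fun y => by have := h.F0 y; positivity)]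
      refine lintegral_congr fun y => ?_
      rw [enorm_eq_ofReal_abs, ← ENNReal.ofReal_mul (abs_nonneg _), ← mul_assoc, abs_mul, abs_of_pos c0,
        show t - y * r = r * (t / r - y) by field_simp, abs_mul, abs_of_pos r0, mul_assoc (exp _) r]

theorem Par.dual' (h : Par e ξ) (h' : Par (-e) η) : Dual (N e ξ) (N (-e) η) := by
  have c : exp (-e / 2) * exp (- -e / 2) = 1 := by rw [← exp_add, exp_eq_one_iff]; ring
  have c0 := exp_pos (-e / 2)
  have c1 := exp_pos (- -e / 2)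
  refine ⟨fun r t p s hr hp => ?_, fun p s hp => ?_⟩
  · by_cases z : r = 0 ∨ p = 0
    · have := mul_le_mul (h.Nlow hr t) (h'.Nlow hp s) (by positivity)
        (le_trans (by positivity) (h.Nlow hr t))
      rw [mul_mul_mul_comm, c, mul_one, ← abs_mul] at this
      rw [mul_eq_zero.2 z, zero_add]
      exact (le_abs_self _).trans this
    rw [not_or] at z
    have r0 := hr.lt_of_ne' z.1
    have p0 := hp.lt_of_ne' z.2
    have := h'.tan (s / p) (t / r * th e (ξ (t / r)) / ro e (ξ (t / r)))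
    rw [(h.dual h' _).1, (h.dual h' _).2] at this
    have q := h.inv (t / r)
    have q0 : 0 ≤ ph e ξ (t / r) := le_trans (by positivity) (h.low _)
    have := mul_le_mul_of_nonneg_left this (mul_nonneg (mul_pos r0 p0).le q0)
    rw [N, N, if_neg z.1, if_neg z.2]
    refine le_trans (le_of_eq ?_) (this.trans_eq (by ring))
    have : r * p * (s / p * (t / r)) = t * s := by field_simp
    linear_combination -(r * p + r * p * (s / p * (t / r))) * q - this
  · by_cases z : p = 0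
    · refine ⟨0, if 0 ≤ s then exp (- -e / 2) else -exp (- -e / 2), le_rfl, ?_, ?_⟩
      · rw [N, if_pos rfl]
        split_ifs <;> simp only [abs_neg, abs_of_pos c1] <;> linarith
      · rw [N, if_pos z]
        split_ifs with q
        · rw [abs_of_nonneg q]; ring
        · rw [abs_of_neg (not_le.1 q)]; ring
    have r0 := h'.ro0 (s / p)
    refine ⟨_, s / p * th (-e) (η (s / p)), r0.le, ?_, ?_⟩
    · obtain ⟨a, b⟩ := h'.dual (η := ξ) (by rwa [neg_neg]) (s / p)
      have q := h'.inv (s / p)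
      rw [neg_neg] at b q
      rw [N, if_neg r0.ne', ph, a, b, ← q, ph]
      exact le_of_eq (by field_simp)
    · rw [N, if_neg z, ph]
      field_simp

theorem planar : ∃ M M' : ℝ → ℝ → ℝ, Rep M ∧ Rep M' ∧ Dual M M' ∧ Dual M' M ∧
    ∃ y, 2 * (M 1 0 ^ 2 + M 0 y ^ 2) < M 1 y ^ 2 + M 1 (-y) ^ 2 := by
  obtain ⟨e, ⟨s1, s2⟩, e0⟩ := (((small.and ((continuous_neg.tendsto' 0 0 neg_zero).eventually
    small)).filter_mono nhdsWithin_le_nhds).and (self_mem_nhdsWithin (s := Ioi 0))).exists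
  obtain ⟨ξ, h⟩ := par s1
  obtain ⟨η, h'⟩ := par s2
  refine ⟨_, _, h.rep, h'.rep, h.dual' h', ?_, exp (2 * e / 9), ?_⟩
  · simpa using h'.dual' (η := ξ) (by rwa [neg_neg])
  have x0 := h.uniq (1 / 2) 0 (by norm_num) (by norm_num) (by simp [sq'])
  have x1 := h.uniq (1 / 3) (exp (2 * e / 9)) (by norm_num) (by norm_num) (by
    rw [sq', ← exp_nat_mul]; ring_nf)
  have q := congrArg (· ^ 2) (h.inv (exp (2 * e / 9)))
  simp only [N, one_ne_zero, if_false, if_true, div_one, one_mul, x1, ro, mul_pow] at q ⊢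
  rw [show ph e ξ (-exp (2 * e / 9)) = ph e ξ (exp (2 * e / 9)) by simp [ph, h.even], ph, x0, ro,
    sq_abs, zero_mul, add_zero, mul_pow, A_sq (by norm_num) (by norm_num)]
  rw [A_sq (by norm_num) (by norm_num)] at q
  simp only [← exp_nat_mul, ← exp_add] at q ⊢
  have a1 : exp ((2 : ℕ) * (-e * (1 - 1 / 2) * (1 / 2))) < exp (-(4 * e / 9)) :=
    exp_lt_exp.2 (by push_cast; linarith)
  have a2 : exp ((2 : ℕ) * (2 * e / 9) + (2 : ℕ) * (-e / 2)) < exp (-(4 * e / 9)) :=
    exp_lt_exp.2 (by push_cast; linarith)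
  have a3 : ph e ξ (exp (2 * e / 9)) ^ 2 = 2 * exp (-(4 * e / 9)) := by
    rw [exp_neg, ← div_eq_mul_inv, eq_div_iff (exp_pos _).ne',
      show 4 * e / 9 = (2 : ℕ) * (- -e * (1 - 1 / 3) * (1 / 3)) by push_cast; ring]
    linarith
  linarith

end Pool.Agent.H.MP_217de7_gt
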