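import Pool.Agent.H.MP_217de7_gt.G

set_option autoImplicit false

namespace Pool.Agent.H.MP_217de7_gt

open Set Metric MeasureTheory Real ProbabilityTheory unitInterval

theorem gauss {ι : Type} (a : ι → ℝ) (s : Finset ι) :
    (Measure.infinitePi fun _ : ι => gaussianReal 0 1).map (∑ i ∈ s, fun w : ι → ℝ => a i * w i) =
      gaussianReal 0 (∑ i ∈ s, NNReal.mk (a i ^ 2) (sq_nonneg _)) := by
  classical
  induction s using Finset.induction_on with
  | empty => simp [Measure.map_const, Pi.zero_def]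
  | insert i s hi ih =>
    have := gaussianReal_add_gaussianReal_of_indepFun ((iIndepFun_infinitePi
      (P := fun _ : ι => gaussianReal 0 1) (X := fun i x => a i * x)
      (by fun_prop)).indepFun_finsetSum_of_notMem (by fun_prop) hi).symm (m₁ := 0)
      (v₁ := NNReal.mk (a i ^ 2) (sq_nonneg _)) (by
        have := gaussianReal_map_const_mul (μ := 0) (v := 1) (a i)
        rw [mul_zero, mul_one] at this
        exact ((Measure.map_map (g := (a i * ·)) (f := fun w : ι → ℝ => w i) (by fun_prop)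
          (by fun_prop)).symm.trans (congrArg _ (Measure.infinitePi_map_eval _ i))).trans this) ih
    rwa [Finset.sum_insert hi, Finset.sum_insert hi, add_zero] at *

theorem Rep.seq {M : ℝ → ℝ → ℝ} (h : Rep M) (ι : Type) [Countable ι] :
    ∃ (v : ι → I → ℝ) (c : ℝ), (∀ i, Integrable (v i)) ∧ ∀ (s : Finset ι) (a : ι → ℝ) (t : ℝ),
      ∫ w, |t * c + ∑ i ∈ s, a i * v i w| = M √(∑ i ∈ s, a i ^ 2) t := by
  obtain ⟨ρ, sg, c, _, hsg, h⟩ := h
  obtain ⟨f, f1, f2⟩ := Measure.exists_measurable_map_eq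
    (ρ.prod (Measure.infinitePi fun _ : ι => gaussianReal 0 1))
  have key : ∀ (s : Finset ι) (a : ι → ℝ) (t : ℝ), ∫⁻ w, ‖t * c + ∑ i ∈ s,
      a i * (-c * sg (f w).1 * (f w).2 i)‖ₑ = .ofReal (M √(∑ i ∈ s, a i ^ 2) t) := by
    intro s a t
    have m : Measurable fun z : ℝ × (ι → ℝ) => ‖t * c + ∑ i ∈ s, a i * (-c * sg z.1 * z.2 i)‖ₑ := by
      fun_prop
    rw [← lintegral_map m f1, f2, lintegral_prod _ m.aemeasurable, ← (h _ t (sqrt_nonneg _)).2]
    refine lintegral_congr fun l => ?_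
    have e := (gauss a s).trans (c := gaussianReal 0 1 |>.map (√(∑ i ∈ s, a i ^ 2) * ·)) (by
      rw [gaussianReal_map_const_mul, mul_zero, mul_one]
      congr 1
      ext
      simp [sq_sqrt (Finset.sum_nonneg fun i _ => sq_nonneg (a i))])
    have m' : Measurable fun g : ℝ => ‖c * (t - sg l * g)‖ₑ := by fun_prop
    have := congrArg (∫⁻ g, ‖c * (t - sg l * g)‖ₑ ∂·) e
    rw [lintegral_map m' (by fun_prop), lintegral_map m' (by fun_prop)] at this
    refine ((lintegral_congr fun w => congrArg _ ?_).trans this).trans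
      (lintegral_congr fun g => by ring_nf)
    simp only [Finset.sum_apply, mul_sub, Finset.mul_sum, sub_eq_add_neg, ← Finset.sum_neg_distrib,
      mul_add, mul_comm c t]
    exact congrArg _ (Finset.sum_congr rfl fun i _ => by ring)
  refine ⟨fun i w => -c * sg (f w).1 * (f w).2 i, c, fun i => ⟨by fun_prop, ?_⟩, fun s a t => ?_⟩
  · have := key {i} 1 0
    simp only [zero_mul, Finset.sum_singleton, Pi.one_apply, one_mul, zero_add] at this
    exact this.trans_lt ENNReal.ofReal_lt_top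
  · rw [← ENNReal.toReal_ofReal (h _ t (sqrt_nonneg _)).1, ← key,
      ← integral_norm_eq_lintegral_enorm (by fun_prop)]
    rfl

theorem Dual.lift {M M' : ℝ → ℝ → ℝ} (h : Dual M M') {H : Type} [NormedAddCommGroup H]
    [InnerProductSpace ℝ H] [Nontrivial H] :
    (∀ (x y : H) (t s : ℝ), inner ℝ x y + t * s ≤ M ‖x‖ t * M' ‖y‖ s) ∧
      ∀ (y : H) (s : ℝ), ∃ (x : H) (t : ℝ), M ‖x‖ t ≤ 1 ∧ inner ℝ x y + t * s = M' ‖y‖ s := by
  refine ⟨fun x y t s => le_trans (by linarith [real_inner_le_norm x y])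
    (h.1 _ t _ s (norm_nonneg x) (norm_nonneg y)), fun y s => ?_⟩
  obtain ⟨r, t, h0, h1, h2⟩ := h.2 _ s (norm_nonneg y)
  by_cases z : y = 0
  · obtain ⟨x, rfl⟩ := exists_norm_eq H h0
    exact ⟨x, t, h1, by simpa [z] using h2⟩
  · have := norm_ne_zero_iff.2 z
    refine ⟨(r / ‖y‖) • y, t, ?_, ?_⟩
    · rwa [norm_smul, norm_div, norm_norm, div_mul_cancel₀ _ this, norm_of_nonneg h0]
    · rw [real_inner_smul_left, real_inner_self_eq_norm_sq, ← h2]
      field_simp

end Pool.Agent.H.MP_217de7_gt
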