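import Pool.Agent.H.MP_217de7_gt.I

set_option autoImplicit false

namespace Pool.Agent.H.MP_217de7_gt

open Set Metric MeasureTheory unitInterval

variable {n : ℕ}

theorem near {B : Set (EuclideanSpace ℝ (Fin n))} (h0 : B.Nonempty) (h1 : IsClosed B) (h2 : Convex ℝ B)
    {a : EuclideanSpace ℝ (Fin n)} {δ : ℝ} (hδ : 0 ≤ δ)
    (h : ∀ q, ∃ b ∈ B, inner ℝ a q ≤ inner ℝ b q + δ * ‖q‖) : ∃ b ∈ B, dist a b ≤ δ := by
  obtain ⟨v, hv, e⟩ := exists_norm_eq_iInf_of_complete_convex h0 h1.isComplete h2 a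
  obtain ⟨b, hb, p⟩ := h (a - v)
  have := (norm_eq_iInf_iff_real_inner_le_zero h2 hv).1 e b hb
  have s := real_inner_self_eq_norm_sq (a - v)
  rw [inner_sub_left] at s
  rw [real_inner_comm, inner_sub_left] at this
  refine ⟨v, hv, dist_eq_norm a v ▸ not_lt.1 fun g => ?_⟩
  nlinarith

theorem approx {ξ : I → EuclideanSpace ℝ (Fin n)} (hξ : Integrable ξ) {δ : ℝ} (hδ : 0 < δ) :
    ∃ (m : ℕ) (v : Fin m → EuclideanSpace ℝ (Fin n)),
      ∀ q, abs ((∫ w, |inner ℝ (ξ w) q|) - ∑ i, |inner ℝ (v i) q|) ≤ δ * ‖q‖ := by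
  obtain ⟨g, h1, h2⟩ := (memLp_one_iff_integrable.2 hξ).exists_simpleFunc_eLpNorm_sub_lt
    ENNReal.one_ne_top (ε := .ofReal δ) (by simpa using hδ)
  rw [memLp_one_iff_integrable] at h2
  refine ⟨_, fun i => volume.real (g ⁻¹' {(g.range.equivFin.symm i).1}) • (g.range.equivFin.symm i).1,
    fun q => ?_⟩
  have e := g.map_integral (fun x => |inner ℝ x q|) h2 (by simp)
  rw [SimpleFunc.integral_eq_integral _ (h2.inner_const q).abs, ← Finset.sum_coe_sort,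
    ← g.range.equivFin.symm.sum_comp] at e
  simp only [real_inner_smul_left, abs_mul, abs_of_nonneg measureReal_nonneg]
  erw [← e, ← integral_sub (hξ.inner_const q).abs (h2.inner_const q).abs]
  refine (abs_integral_le_integral_abs).trans ((integral_mono
    ((hξ.inner_const q).abs.sub (h2.inner_const q).abs).abs ((hξ.sub h2).norm.mul_const ‖q‖)
    fun w => ?_).trans ?_)
  · refine (abs_abs_sub_abs_le_abs_sub _ _).trans ?_
    rw [← inner_sub_left]
    exact abs_real_inner_le_norm _ _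
  · rw [integral_mul_const, integral_norm_eq_lintegral_enorm (hξ.sub h2).1,
      ← eLpNorm_one_eq_lintegral_enorm]
    exact mul_le_mul_of_nonneg_right (ENNReal.toReal_le_of_le_ofReal hδ.le h1.le) (norm_nonneg q)

theorem zon {ξ : I → EuclideanSpace ℝ (Fin n)} (hξ : Integrable ξ) {Z : Set (EuclideanSpace ℝ (Fin n))}
    (h1 : ∀ z, z ∈ Z ↔ ∀ q, inner ℝ z q ≤ ∫ w, |inner ℝ (ξ w) q|)
    (h2 : ∀ q, ∃ z ∈ Z, inner ℝ z q = ∫ w, |inner ℝ (ξ w) q|) : Z.Nonempty ∧ IsCompact Z ∧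
      ∀ δ : ℝ, 0 < δ → ∃ m : ℕ, ∃ v : Fin m → EuclideanSpace ℝ (Fin n),
        hausdorffDist Z {x | ∃ t : Fin m → ℝ, (∀ i, |t i| ≤ 1) ∧ x = ∑ i, t i • v i} < δ := by
  have ne : Z.Nonempty := let ⟨z, hz, _⟩ := h2 0; ⟨z, hz⟩
  have cl : IsClosed Z := by
    rw [show Z = ⋂ q, {z | inner ℝ z q ≤ ∫ w, |inner ℝ (ξ w) q|} from Set.ext fun z => by simp [h1]]
    exact isClosed_iInter fun _ => isClosed_le (by fun_prop) (by fun_prop)
  have cv : Convex ℝ Z := fun x hx y hy a b ha hb hab => (h1 _).2 fun q => by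
    rw [inner_add_left, real_inner_smul_left, real_inner_smul_left, ← one_mul (∫ _, _), ← hab, add_mul]
    gcongr
    exacts [(h1 x).1 hx q, (h1 y).1 hy q]
  refine ⟨ne, (isCompact_closedBall 0 (∫ w, ‖ξ w‖)).of_isClosed_subset cl fun z hz => ?_,
    fun δ hδ => ?_⟩
  · have := ((h1 z).1 hz z).trans (integral_mono (hξ.inner_const z).abs (hξ.norm.mul_const ‖z‖)
      fun w => abs_real_inner_le_norm _ _)
    rw [integral_mul_const, real_inner_self_eq_norm_sq] at this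
    have p : 0 ≤ ∫ w, ‖ξ w‖ := by positivity
    exact mem_closedBall_zero_iff.2 (not_lt.1 fun g => by nlinarith)
  obtain ⟨m, v, hv⟩ := approx hξ (half_pos hδ)
  have e : {x | ∃ t : Fin m → ℝ, (∀ i, |t i| ≤ 1) ∧ x = ∑ i, t i • v i} =
      Fintype.linearCombination ℝ v '' Icc (-1) 1 := Set.ext fun x => by
    simp [Fintype.linearCombination_apply, abs_le, Pi.le_def, forall_and, eq_comm]
  refine ⟨m, v, (hausdorffDist_le_of_mem_dist (half_pos hδ).le (fun z hz => near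
    (e ▸ (nonempty_Icc.2 fun _ => by simp).image _)
    (e ▸ (isCompact_Icc.image (LinearMap.continuous_of_finiteDimensional _)).isClosed)
    (e ▸ (convex_Icc _ _).linear_image _) (half_pos hδ).le fun q => ?_) ?_).trans_lt (half_lt_self hδ)⟩
  · refine ⟨_, ⟨fun i => if 0 ≤ inner ℝ (v i) q then 1 else -1, fun i => by
      dsimp only; split_ifs <;> simp, rfl⟩, ?_⟩
    rw [sum_inner, Finset.sum_congr rfl (g := fun i => |inner ℝ (v i) q|) fun i _ => by
      rw [real_inner_smul_left]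
      dsimp only
      split_ifs with p
      exacts [by rw [one_mul, abs_of_nonneg p], by rw [neg_one_mul, abs_of_neg (not_le.1 p)]]]
    linarith [(h1 z).1 hz q, (abs_le.1 (hv q)).2]
  · rintro _ ⟨t, ht, rfl⟩
    refine near ne cl cv (half_pos hδ).le fun q => ?_
    obtain ⟨z, hz, p⟩ := h2 q
    have : ∑ i, inner ℝ (t i • v i) q ≤ ∑ i, |inner ℝ (v i) q| := Finset.sum_le_sum fun i _ => by
      rw [real_inner_smul_left]
      exact (le_abs_self _).trans ((abs_mul _ _).trans_le (mul_le_of_le_one_left (abs_nonneg _) (ht i)))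
    exact ⟨z, hz, by rw [sum_inner]; linarith [(abs_le.1 (hv q)).1]⟩

/-- the last coordinates -/
def tl (p : EuclideanSpace ℝ (Fin (n + 1))) : EuclideanSpace ℝ (Fin n) := .toLp 2 fun i => p i.succ

/-- a vector with given first coordinate -/
def cs (t : ℝ) (x : EuclideanSpace ℝ (Fin n)) : EuclideanSpace ℝ (Fin (n + 1)) :=
  .toLp 2 (Fin.cons t x)

theorem inn (p q : EuclideanSpace ℝ (Fin (n + 1))) :
    inner ℝ p q = inner ℝ (tl p) (tl q) + p 0 * q 0 := by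
  simp [PiLp.inner_apply, Fin.sum_univ_succ, tl, add_comm, mul_comm]

theorem Rep.fin {M : ℝ → ℝ → ℝ} (h : Rep M) : ∃ ξ : I → EuclideanSpace ℝ (Fin (n + 1)),
    Integrable ξ ∧ ∀ q, ∫ w, |inner ℝ (ξ w) q| = M ‖tl q‖ (q 0) := by
  obtain ⟨v, c, h1, h2⟩ := h.seq (Fin n)
  refine ⟨fun w => cs c (.toLp 2 fun i => v i w), .of_eval_piLp fun i => ?_, fun q => ?_⟩
  · exact Fin.cases (motive := fun i => Integrable (fun w => cs c (.toLp 2 fun i => v i w) i) volume)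
      (integrable_const c) h1 i
  · simp [PiLp.inner_apply, Fin.sum_univ_succ, cs, tl, h2, EuclideanSpace.norm_eq]

theorem body {M M' : ℝ → ℝ → ℝ} (h : Rep M') (d : Dual M M') (d' : Dual M' M) :
    let Z : Set (EuclideanSpace ℝ (Fin (n + 2))) := {p | M ‖tl p‖ (p 0) ≤ 1}
    {y | ∀ x ∈ Z, inner ℝ x y ≤ (1 : ℝ)} = {p | M' ‖tl p‖ (p 0) ≤ 1} ∧ Z.Nonempty ∧ IsCompact Z ∧
      ∀ δ : ℝ, 0 < δ → ∃ m : ℕ, ∃ v : Fin m → EuclideanSpace ℝ (Fin (n + 2)),
        hausdorffDist Z {x | ∃ t : Fin m → ℝ, (∀ i, |t i| ≤ 1) ∧ x = ∑ i, t i • v i} < δ := by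
  intro Z
  obtain ⟨ξ, h1, h2⟩ := h.fin (n := n + 1)
  have a : ∀ z ∈ Z, ∀ q, inner ℝ z q ≤ M' ‖tl q‖ (q 0) := fun z hz q => inn z q ▸
    (d.lift.1 _ _ _ _).trans (mul_le_of_le_one_left (h2 q ▸ by positivity) hz)
  have b : ∀ q, ∃ z ∈ Z, inner ℝ z q = M' ‖tl q‖ (q 0) := fun q =>
    let ⟨x, t, p, p'⟩ := d.lift.2 (tl q) (q 0)
    ⟨cs t x, p, (inn _ _).trans p'⟩
  refine ⟨Set.ext fun y => ⟨fun hy => ?_, fun hy x hx => (a x hx y).trans hy⟩,
    zon h1 (fun z => ⟨fun hz q => h2 q ▸ a z hz q, fun hz => ?_⟩) fun q => h2 q ▸ b q⟩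
  · obtain ⟨z, hz, p⟩ := b y
    exact p.ge.trans (hy z hz)
  · obtain ⟨x, t, p, p'⟩ := d'.lift.2 (tl z) (z 0)
    have := hz (cs t x)
    rw [h2, real_inner_comm, inn] at this
    exact (p'.ge.trans this).trans p

end Pool.Agent.H.MP_217de7_gt
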